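import Pool.Agent.Helper18.BI.S5.StA
import Pool.Agent.Helper34.BI.R.M_SMG

/-!
# Project BI, stage 5, module SQS: smoothing of squares relative to the boundary
-/

set_option autoImplicit false

open scoped Manifold ContDiff Topology ComplexConjugate
open Set Pool.Agent.Helper65.Barb Pool.Agent.Helper18.BI
open Pool.Agent.Helper27.H (ArcD)
open Pool.Agent.Helper18.BI.R
open Pool.Agent.Helper34.BI.R (trc continuous_trc trc_eq_zero norm_trc_sub)

namespace Pool.Agent.Helper18.BI.S5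

theorem m_SQS : StSQS := by
  intro D g hg
  have hm : D.m₀ < D.m₁ := D.h₁
  have hDc : Continuous D.c := D.smooth.continuous
  -- the rectangle
  let C : Set (ℝ × ℝ) := Icc (0 : ℝ) 1 ×ˢ Icc D.m₀ D.m₁
  let O : Set (ℝ × ℝ) := Ioo (0 : ℝ) 1 ×ˢ Ioo D.m₀ D.m₁
  have hC : IsCompact C := isCompact_Icc.prod isCompact_Icc
  have hO : IsOpen O := isOpen_Ioo.prod isOpen_Ioo
  have hOC : O ⊆ C := prod_mono Ioo_subset_Icc_self Ioo_subset_Icc_self
  have hbd : ∀ z ∈ C, z ∉ O → g z.1 z.2 = D.c z.2 := by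
    rintro ⟨q, s⟩ ⟨hq, hs⟩ hz
    refine hg.bd q hq s hs ?_
    by_contra hne
    push Not at hne
    obtain ⟨n1, n2, n3, n4⟩ := hne
    exact hz ⟨⟨lt_of_le_of_ne hq.1 (Ne.symm n1), lt_of_le_of_ne hq.2 n2⟩,
      ⟨lt_of_le_of_ne hs.1 (Ne.symm n3), lt_of_le_of_ne hs.2 n4⟩⟩
  -- the difference
  classical
  let E : ℝ × ℝ → R4 := fun z => if z ∈ O then g z.1 z.2 - D.c z.2 else 0
  have hE0 : ∀ z, z ∉ O → E z = 0 := fun z hz => if_neg hz
  have hE1 : ∀ z ∈ C, E z = g z.1 z.2 - D.c z.2 := by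
    intro z hz
    by_cases h2 : z ∈ O
    · exact if_pos h2
    · rw [hE0 z h2, hbd z hz h2, sub_self]
  have hE : Continuous E := by
    rw [← continuousOn_univ]
    have h2 : (univ : Set (ℝ × ℝ)) = C ∪ Oᶜ := by
      ext z
      simp only [mem_univ, mem_union, mem_compl_iff, true_iff]
      by_cases h3 : z ∈ O
      · exact Or.inl (hOC h3)
      · exact Or.inr h3
    rw [h2]
    refine ContinuousOn.union_of_isClosed ?_ ?_ hC.isClosed hO.isClosed_compl
    · exact (hg.cont.sub (hDc.comp continuous_snd).continuousOn).congr hE1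
    · exact continuousOn_const.congr hE0
  -- the distance
  have hgC : IsCompact ((fun z : ℝ × ℝ => g z.1 z.2) '' C) := hC.image_of_continuousOn hg.cont
  have hgCU : (fun z : ℝ × ℝ => g z.1 z.2) '' C ⊆ D.U := by
    rintro _ ⟨⟨q, s⟩, ⟨hq, hs⟩, rfl⟩
    exact hg.inU q hq s hs
  obtain ⟨κ, hκ, hκU⟩ := hgC.exists_thickening_subset_open D.openU hgCU
  obtain ⟨δ, hδ, hδκ⟩ : ∃ δ : ℝ, 0 < δ ∧ 2 * δ < κ := ⟨κ / 4, by positivity, by linarith⟩
  -- the truncated difference and its smoothing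
  have hf : Continuous fun z => trc δ (E z) := (continuous_trc hδ).comp hE
  obtain ⟨e, he, heg, hee, -⟩ := hf.exists_contDiff_approx_and_eqOn ⊤ (ε := fun _ => δ)
    continuous_const (fun _ => hδ) (S := Oᶜ) (U := {z | ‖E z‖ < δ}) hO.isClosed_compl
    ((isOpen_lt hE.norm continuous_const).mem_nhdsSet.2 fun z hz => by
      show ‖E z‖ < δ
      rw [hE0 z hz, norm_zero]
      exact hδ) ((contDiff_const (c := (0 : R4))).contDiffOn.congr fun z hz =>
        trc_eq_zero (le_of_lt hz))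
  have hes : ContDiff ℝ ∞ e := he
  have he0 : ∀ z, z ∉ O → e z = 0 := fun z hz => by
    rw [hee hz]
    exact trc_eq_zero (by rw [hE0 z hz, norm_zero]; exact hδ.le)
  have hcg : ∀ z ∈ C, dist (D.c z.2 + e z) (g z.1 z.2) < κ := by
    intro z hz
    have h2 : dist (e z) (trc δ (E z)) < δ := heg z
    have h3 : ‖trc δ (E z) - E z‖ ≤ δ := norm_trc_sub hδ _
    rw [dist_eq_norm] at h2
    rw [dist_eq_norm]
    have h4 : D.c z.2 + e z - g z.1 z.2 = (e z - trc δ (E z)) + (trc δ (E z) - E z) := by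
      rw [hE1 z hz]
      abel
    rw [h4]
    calc ‖(e z - trc δ (E z)) + (trc δ (E z) - E z)‖
        ≤ ‖e z - trc δ (E z)‖ + ‖trc δ (E z) - E z‖ := norm_add_le _ _
      _ < κ := by linarith
  have hball : ∀ z ∈ C, Metric.ball (g z.1 z.2) κ ⊆ D.U := by
    intro z hz x hx
    apply hκU
    rw [Metric.mem_thickening_iff]
    exact ⟨g z.1 z.2, ⟨z, hz, rfl⟩, hx⟩
  refine ⟨fun q s => D.c s + e (q, s), ⟨?_, ?_, ?_, ?_, ?_⟩, ?_⟩
  · exact (D.smooth.comp contDiff_snd).add hes
  · intro q hq s hs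
    have h2 : e (q, s) = 0 := he0 _ fun h2 => by
      have h3 := h2.2
      rcases hs with hs | hs
      · exact absurd h3.1 (not_lt.2 hs)
      · exact absurd h3.2 (not_lt.2 hs)
    simp only [h2, add_zero]
  · intro q hq s hs
    exact hball (q, s) ⟨hq, hs⟩ (hcg (q, s) ⟨hq, hs⟩)
  · intro s
    have h2 : e (0, s) = 0 := he0 _ fun h2 => absurd h2.1.1 (lt_irrefl _)
    simp only [h2, add_zero]
  · intro s
    have h2 : e (1, s) = 0 := he0 _ fun h2 => absurd h2.1.2 (lt_irrefl _)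
    simp only [h2, add_zero]
  · refine ⟨fun z => (1 - z.1) • (D.c z.2.2 + e z.2) + z.1 • g z.2.1 z.2.2, ?_, ?_, ?_⟩
    · have h1 : ContinuousOn (fun z : ℝ × ℝ × ℝ => g z.2.1 z.2.2)
          (Icc (0 : ℝ) 1 ×ˢ (Icc (0 : ℝ) 1 ×ˢ Icc D.m₀ D.m₁)) :=
        hg.cont.comp continuous_snd.continuousOn fun z hz => hz.2
      have h2 : Continuous fun z : ℝ × ℝ × ℝ => (1 - z.1) • (D.c z.2.2 + e z.2) :=
        (continuous_const.sub continuous_fst).smul
          ((hDc.comp (continuous_snd.comp continuous_snd)).add (hes.continuous.comp continuous_snd))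
      exact h2.continuousOn.add (continuous_fst.continuousOn.smul h1)
    · intro q hq s hs
      constructor
      · show (1 - (0 : ℝ)) • (D.c s + e (q, s)) + (0 : ℝ) • g q s = _
        rw [sub_zero, one_smul, zero_smul, add_zero]
      · show (1 - (1 : ℝ)) • (D.c s + e (q, s)) + (1 : ℝ) • g q s = _
        rw [sub_self, one_smul, zero_smul, zero_add]
    · intro u hu q hq s hs
      constructor
      · have h1 : D.c s + e (q, s) ∈ Metric.ball (g q s) κ := hcg (q, s) ⟨hq, hs⟩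
        have h2 : g q s ∈ Metric.ball (g q s) κ := Metric.mem_ball_self hκ
        exact hball (q, s) ⟨hq, hs⟩ ((convex_ball (g q s) κ) h1 h2 (by linarith [hu.2]) hu.1
          (by ring))
      · intro h
        have h1 : g q s = D.c s := hg.bd q hq s hs h
        have h2 : e (q, s) = 0 := he0 _ fun h2 => by
          obtain ⟨h3, h4⟩ := h2
          rcases h with h | h | h | h
          · exact absurd h3.1 (not_lt.2 h.le)
          · exact absurd h3.2 (not_lt.2 h.ge)
          · exact absurd h4.1 (not_lt.2 h.le)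
          · exact absurd h4.2 (not_lt.2 h.ge)
        show (1 - u) • (D.c s + e (q, s)) + u • g q s = D.c s
        rw [h1, h2, add_zero, ← add_smul, sub_add_cancel, one_smul]

end Pool.Agent.Helper18.BI.S5
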